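import Mathlib

set_option autoImplicit false

open Complex Matrix
open scoped ComplexConjugate

namespace Pool.Agent.H.MP_3d2409_an

def T : Matrix (Fin 6) (Fin 6) ℂ := !![0, 0, 0, 0, 0, 1; 1, 0, 0, 0, 0, 0; 0, 1, 0, 0, 0, 0;
  0, 0, 1, 0, 0, 0; 2, 0, 0, 1, 0, 0; 0, 2, 0, 0, 1, 0]

lemma pf {B : Fin 6 → Fin 6 → ℂ} {x y z w : Fin 6 → ℂ} (h : ∀ i j, B i j = x i * y j + z i * w j)
    (s : ∀ i j, B i j = -B j i) (i j k l : Fin 6) :
    B i j * B k l - B i k * B j l + B i l * B j k = 0 := by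
  have d : ∀ i, B i i = 0 := fun i => by linear_combination (1 / 2 : ℂ) * s i i
  have m : ∀ i j k l, B i j * (B i j * B k l - B i k * B j l + B i l * B j k) = 0 := fun i j k l => by
    have : B i i * (B j j * B k l - B j l * B k j) - B i j * (B j i * B k l - B j l * B k i) +
      B i l * (B j i * B k j - B j j * B k i) = 0 := by simp only [h]; ring
    rw [d, d, s j i, s k i, s k j] at this
    linear_combination this
  have a := m i k j l
  have b := m i l j k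
  rw [s k j] at a
  rw [s l k, s l j] at b
  refine pow_eq_zero_iff two_ne_zero |>.1 ?_
  linear_combination B k l * m i j k l + B j l * a + B j k * b

lemma parP {L : Matrix (Fin 6) (Fin 6) ℂ} (h : L * T + T * Lᴴ = 0) : ∃ a b c : ℝ, ∀ i j, (L i j).re =
    !![-c, -a - 2 * b, b - a, -2 * c, b, a; a, -3 * c, a + 2 * b, -b, 2 * c, -a - b;
      b, -a, -c, a, a + b, 2 * c; -2 * c, -a - b, -a, c, a, -b;
      a + b, -2 * c, b, -a - 2 * b, 3 * c, -a; -a, -b, 2 * c, a - b, a + 2 * b, c] i j := by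
  have h1 := fun i j => congrArg re (congrFun (congrFun h i) j)
  simp [Fin.forall_fin_succ, mul_apply, Fin.sum_univ_succ, T, vecMul, dotProduct, and_assoc] at h1
  refine ⟨(L 0 5).re, (L 0 4).re, (L 5 5).re, fun i j => ?_⟩
  obtain ⟨_, _, _, _, _, _, _, _, _, _, _, _, _, _, _, _, _, _, _, _, _, _, _, _, _, _, _, _, _, _, _,
    _, _, _, _, _⟩ := h1
  fin_cases i <;> fin_cases j <;> simp <;> linarith

lemma parQ {L : Matrix (Fin 6) (Fin 6) ℂ} (h : L * T + T * Lᴴ = 0) : ∃ x y z : ℝ, ∀ i j, (L i j).im =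
    !![z, 2 * y - x, x + y, 0, -y, -x; -x, z, x - 2 * y, -y, 0, y - x; -y, x, z, x, y - x, 0;
      0, y - x, x, z, x, -y; y - x, 0, -y, x - 2 * y, z, -x; -x, -y, 0, x + y, 2 * y - x, z] i j := by
  have h1 := fun i j => congrArg im (congrFun (congrFun h i) j)
  simp [Fin.forall_fin_succ, mul_apply, Fin.sum_univ_succ, T, vecMul, dotProduct, and_assoc] at h1
  refine ⟨-(L 0 5).im, -(L 0 4).im, (L 0 0).im, fun i j => ?_⟩
  obtain ⟨_, _, _, _, _, _, _, _, _, _, _, _, _, _, _, _, _, _, _, _, _, _, _, _, _, _, _, _, _, _, _,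
    _, _, _, _, _⟩ := h1
  fin_cases i <;> fin_cases j <;> simp <;> linarith

lemma alg {L : Matrix (Fin 6) (Fin 6) ℂ} (h : L * T + T * Lᴴ = 0) {x y z w : Fin 6 → ℂ}
    (hr : ∀ i j, L i j + conj (L j i) = x i * y j + z i * w j) : ∃ c : ℝ, L = (c * I : ℂ) • 1 := by
  obtain ⟨a, b, c, hP⟩ := parP h
  obtain ⟨p, q, r, hQ⟩ := parQ h
  have k := pf (fun i j => hr i.rev j) (fun i j => by
    apply Complex.ext <;> simp only [add_re, add_im, neg_re, neg_im, conj_re, conj_im, hP, hQ] <;>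
      fin_cases i <;> fin_cases j <;> simp [Fin.rev] <;> ring)
  have k1 := congrArg re (k 0 1 4 5)
  have k2 := congrArg re (k 0 2 3 5)
  simp [Fin.rev, hP, hQ] at k1 k2
  have e : (a + 2 * b) ^ 2 + 2 * a ^ 2 + (p - 2 * q) ^ 2 + 2 * p ^ 2 + 4 * c ^ 2 = 0 := by
    linear_combination 2 * k1 - k2
  obtain rfl : a = 0 := by nlinarith [sq_nonneg (a + 2 * b), sq_nonneg (p - 2 * q)]
  obtain rfl : p = 0 := by nlinarith [sq_nonneg (0 + 2 * b), sq_nonneg (p - 2 * q)]
  obtain rfl : b = 0 := by nlinarith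
  obtain rfl : q = 0 := by nlinarith
  obtain rfl : c = 0 := by nlinarith
  refine ⟨r, Matrix.ext fun i j => Complex.ext ?_ ?_⟩
  · rw [hP]; fin_cases i <;> fin_cases j <;> simp
  · rw [hQ]; fin_cases i <;> fin_cases j <;> simp

end Pool.Agent.H.MP_3d2409_an
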