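import Pool.Agent.H.MP_3d2409_an.A

set_option autoImplicit false

open Complex Matrix
open scoped ComplexConjugate

namespace Pool.Agent.H.MP_3d2409_an

lemma red {R : Matrix (Fin 6 ⊕ Unit) (Fin 6 ⊕ Unit) ℂ} {c a b w : Fin 6 ⊕ Unit → ℂ} {ζ : ℂ}
    (hζ : ‖ζ‖ = 1) (hu : ∀ μ : ℂ, ‖μ‖ = 1 → IsUnit (1 - μ • R).det) (hw : w ᵥ* (1 - ζ • R) = c)
    (w0 : w (.inr ()) ≠ 0) (h1 : 1 - Rᴴ * R = vecMulVec (star c) c)
    (h2 : fromBlocks T 0 0 0 - Rᴴ * fromBlocks T 0 0 0 * R = vecMulVec a c + vecMulVec (star c) b) :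
    False := by
  obtain ⟨Q, hQ⟩ : ∃ Q, Q = 1 - ζ • R := ⟨_, rfl⟩
  obtain ⟨G, hG⟩ : ∃ G, G = Q⁻¹ := ⟨_, rfl⟩
  have q1 : Q * G = 1 := by rw [hG, hQ]; exact mul_nonsing_inv _ (hu ζ hζ)
  have q2 : Gᴴ * Qᴴ = 1 := by rw [← conjTranspose_mul, q1, conjTranspose_one]
  have q3 : c ᵥ* G = w := by rw [← hw, ← hQ, vecMul_vecMul, q1, vecMul_one]
  have q4 : Gᴴ *ᵥ star c = star w := by rw [← star_vecMul, q3]
  have k : ∀ A : Matrix (Fin 6 ⊕ Unit) (Fin 6 ⊕ Unit) ℂ,
      Gᴴ * (A - Rᴴ * A * R) * G = Gᴴ * A + A * G - A := fun A => by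
    have : Rᴴ * A * R = (1 - Q)ᴴ * A * (1 - Q) := by
      rw [hQ, sub_sub_cancel, conjTranspose_smul, smul_mul, smul_mul, Matrix.mul_smul, smul_smul,
        star_def, conj_mul', hζ]
      simp
    rw [this, conjTranspose_sub, conjTranspose_one]
    simp only [mul_sub, sub_mul, mul_one, one_mul, mul_assoc, q1]
    simp only [← mul_assoc, q2, one_mul]
    abel
  have k1 := k 1
  have k2 := k (fromBlocks T 0 0 0)
  rw [Matrix.mul_one, h1, mul_vecMulVec, vecMulVec_mul, q3, q4, Matrix.mul_one,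
    Matrix.one_mul] at k1
  rw [h2, Matrix.mul_add, Matrix.add_mul, mul_vecMulVec, vecMulVec_mul, mul_vecMulVec,
    vecMulVec_mul, q3, q4] at k2
  have w1 : conj (w (.inr ())) ≠ 0 := by simpa using w0
  obtain ⟨r, hr⟩ := alg (L := of fun i j => conj (G (.inl j) (.inl i)) - conj (w (.inl i)) *
      conj (G (.inl j) (.inr ())) / conj (w (.inr ())) - if i = j then 1 / 2 else 0)
    (x := fun i => conj (w (.inl i))) (y := fun j => w (.inl j) - conj (G (.inl j) (.inr ())) /
      conj (w (.inr ()))) (z := fun i => -G (.inl i) (.inr ()) / w (.inr ()))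
    (w := fun j => w (.inl j)) (Matrix.ext fun i j => by
      have a1 := congrFun (congrFun k2 (.inl i)) (.inl j)
      have a2 := congrFun (congrFun k2 (.inr ())) (.inl j)
      have a3 := congrFun (congrFun k2 (.inl i)) (.inr ())
      have a4 := congrFun (congrFun k2 (.inr ())) (.inr ())
      simp [mul_apply, vecMulVec_apply] at a1 a2 a3 a4
      simp [mul_apply, sub_mul, mul_sub, Finset.sum_sub_distrib, apply_ite conj, map_ofNat]
      simp only [mul_div_right_comm, mul_assoc, ← Finset.mul_sum, mul_left_comm (T i _) (_ / _), ← a2,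
        ← a3]
      linear_combination (norm := (field_simp; ring)) -a1 - conj (w (.inl i)) * w (.inl j) /
        (conj (w (.inr ())) * w (.inr ())) * a4) fun i j => by
      have a1 := congrFun (congrFun k1 (.inl i)) (.inl j)
      simp [vecMulVec_apply, one_apply] at a1
      simp [apply_ite conj, eq_comm (a := j), map_ofNat]
      split_ifs at a1 ⊢ <;> linear_combination -a1
  obtain ⟨x, x0, x1, x2⟩ : ∃ x : Fin 6 ⊕ Unit → ℂ, x ≠ 0 ∧ x (.inr ()) = 0 ∧
      (Gᴴ *ᵥ x) (.inr ()) = 0 := by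
    by_cases h : G (.inl 0) (.inr ()) = 0
    · exact ⟨Pi.single (.inl 0) 1, by simp, by simp, by simp [h]⟩
    · refine ⟨Pi.single (.inl 0) (conj (G (.inl 1) (.inr ()))) -
        Pi.single (.inl 1) (conj (G (.inl 0) (.inr ()))), fun a => h ?_, by simp, ?_⟩
      · simpa using congrFun a (.inl 1)
      · simp [mulVec_sub, mul_comm]
  have x3 : Gᴴ *ᵥ x = (1 / 2 + r * I : ℂ) • x := by
    ext (i | i)
    · have : ∀ j, conj (G (.inl j) (.inl i)) = conj (w (.inl i)) / conj (w (.inr ())) *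
          conj (G (.inl j) (.inr ())) + if i = j then (1 / 2 + r * I : ℂ) else 0 := fun j => by
        have := congrFun (congrFun hr i) j
        simp only [of_apply, Matrix.smul_apply, one_apply, smul_eq_mul] at this
        split_ifs at this ⊢ <;> linear_combination this
      simp [mulVec, dotProduct, x1] at x2 ⊢
      simp [this, add_mul, Finset.sum_add_distrib, mul_assoc, ← Finset.mul_sum, x2]
    · rw [x2, Pi.smul_apply, x1, smul_zero]
  have x4 : x = (1 / 2 + r * I : ℂ) • (x - conj ζ • Rᴴ *ᵥ x) := by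
    have := congrArg (Qᴴ *ᵥ ·) x3
    simp only [mulVec_mulVec, mul_eq_one_comm.1 q2, one_mulVec, mulVec_smul] at this
    rwa [hQ, conjTranspose_sub, sub_mulVec, conjTranspose_one, one_mulVec, conjTranspose_smul,
      smul_mulVec] at this
  have n0 : (-1 / 2 - r * I : ℂ) ≠ 0 := fun h => by simpa using congrArg re h
  have n1 : (-1 / 2 + r * I : ℂ) ≠ 0 := fun h => by simpa using congrArg re h
  have u := hu ((1 / 2 - r * I) / (-1 / 2 - r * I) * ζ) (by
    rw [norm_mul, hζ, mul_one, norm_div, div_eq_one_iff_eq (norm_ne_zero_iff.2 n0), ← sq_eq_sq₀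
      (norm_nonneg _) (norm_nonneg _), Complex.sq_norm, Complex.sq_norm]
    simp [normSq_apply]
    norm_num)
  rw [← isUnit_star, ← det_conjTranspose] at u
  refine x0 (eq_zero_of_mulVec_eq_zero u.ne_zero ?_)
  rw [conjTranspose_sub, sub_mulVec, conjTranspose_one, one_mulVec, conjTranspose_smul, smul_mulVec]
  ext i
  have := congrFun x4 i
  simp [map_ofNat] at this ⊢
  rw [sub_eq_zero, mul_assoc, div_mul_eq_mul_div, eq_div_iff n1]
  linear_combination -this

end Pool.Agent.H.MP_3d2409_an
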