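import Pool.Agent.H.MP_3d2409_an.B

set_option autoImplicit false

open MeasureTheory Complex Matrix AddCircle
open scoped ComplexConjugate

namespace Pool.Agent.H.MP_3d2409_an

abbrev Circ := AddCircle (1 : ℝ)

noncomputable abbrev mu : Measure Circ := haarAddCircle

def hardy : Set (Lp ℂ 2 mu) := {f | ∀ k : ℤ, k < 0 → fourierCoeff f k = 0}

def IsInner (Θ : Lp ℂ 2 mu) : Prop :=
  Θ ∈ hardy ∧ (∀ᵐ t ∂mu, ‖Θ t‖ = 1) ∧ ∀ c : ℂ, ¬∀ᵐ t ∂mu, Θ t = c

def model (Θ : Lp ℂ 2 mu) : Set (Lp ℂ 2 mu) :=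
  {f | f ∈ hardy ∧ ∀ g ∈ hardy, ∫ t, Θ t * g t * conj (f t) ∂mu = 0}

def UETTO {ι : Type} (M : Matrix ι ι ℂ) : Prop :=
  ∃ (Θ φ : Lp ℂ 2 mu) (e : ι → Lp ℂ 2 mu), IsInner Θ ∧ Orthonormal ℂ e ∧
    (Submodule.span ℂ (Set.range e) : Set (Lp ℂ 2 mu)) = model Θ ∧
    ∀ i j, M i j = ∫ t, φ t * e j t * conj (e i t) ∂mu

lemma mulz (k : ℤ) (f : Lp ℂ 2 mu) : ∃ g : Lp ℂ 2 mu, (∀ᵐ t ∂mu, g t = fourier k t * f t) ∧
    ∀ n, fourierCoeff g n = fourierCoeff f (n - k) := by
  have h : MemLp (fun t => fourier k t * f t) 2 mu := (memLp_congr_norm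
    ((fourier k).continuous.aestronglyMeasurable.mul (Lp.memLp f).1) (Lp.memLp f).1
      (.of_forall fun t => by simp)).2 (Lp.memLp f)
  refine ⟨h.toLp, h.coeFn_toLp, fun n => ?_⟩
  rw [fourierCoeff_congr_ae h.coeFn_toLp, fourierCoeff, fourierCoeff]
  simp only [smul_eq_mul, ← mul_assoc, ← fourier_add, neg_sub, neg_add_eq_sub]

lemma mean0 {f g : Lp ℂ 2 mu} (hf : f ∈ hardy) (hg : ∀ k ≤ 0, fourierCoeff g k = 0) :
    ∫ t, f t * g t ∂mu = 0 := by
  have h := (fourierBasis (T := 1)).hasSum_inner_mul_inner (star f) g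
  have h1 : inner ℂ (star f) g = ∫ t, f t * g t ∂mu := by
    rw [L2.inner_def]
    refine integral_congr_ae ?_
    filter_upwards [Lp.coeFn_star f] with t ht
    simp [ht, mul_comm]
  rw [← h1, ← h.tsum_eq]
  refine (tsum_congr fun n => ?_).trans tsum_zero
  rcases le_or_gt n 0 with a | a
  · rw [← HilbertBasis.repr_apply_apply, fourierBasis_repr, hg n a, mul_zero]
  · refine mul_eq_zero_of_left ?_ _
    rw [← hf (-n) (by omega), L2.inner_def, fourierCoeff, coe_fourierBasis]
    refine integral_congr_ae ?_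
    filter_upwards [Lp.coeFn_star f, coeFn_fourierLp (T := 1) 2 n] with t ht h2
    rw [RCLike.inner_apply, ht, h2]
    simp

lemma back {Θ f : Lp ℂ 2 mu} (hΘ : IsInner Θ) (hf : f ∈ model Θ) : ∃ g ∈ model Θ,
    (∀ᵐ t ∂mu, f t = fourierCoeff f 0 + fourier 1 t * g t) ∧
      ∀ n : ℕ, fourierCoeff g n = fourierCoeff f (n + 1) := by
  obtain ⟨g, g1, g2⟩ := mulz (-1) (f - fourierCoeff f 0 • fourierLp 2 0)
  have g3 : ∀ n, fourierCoeff g n = if n = -1 then 0 else fourierCoeff f (n + 1) := fun n => by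
    rw [g2, ← fourierBasis_repr, map_sub, map_smul, ← coe_fourierBasis, HilbertBasis.repr_self,
      lp.coeFn_sub, lp.coeFn_smul, Pi.sub_apply, fourierBasis_repr, sub_neg_eq_add]
    split_ifs with h
    · simp [h]
    · simp [show n + 1 ≠ 0 by omega]
  have g4 : ∀ᵐ t ∂mu, g t = fourier (-1) t * (f t - fourierCoeff f 0) := by
    filter_upwards [g1, Lp.coeFn_sub f (fourierCoeff f 0 • fourierLp 2 0),
      Lp.coeFn_smul (fourierCoeff f 0) (fourierLp (T := 1) 2 0), coeFn_fourierLp (T := 1) 2 0]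
      with t a1 a2 a3 a4
    rw [a1, a2, Pi.sub_apply, a3, Pi.smul_apply, a4]
    simp
  refine ⟨g, ⟨fun k hk => ?_, fun h hh => ?_⟩, g4.mono fun t ht => ?_, fun n => ?_⟩
  · rw [g3]
    split_ifs with a
    exacts [rfl, hf.1 _ (by omega)]
  · obtain ⟨p, p1, p2⟩ := mulz 1 h
    have a1 := hf.2 p fun k hk => by rw [p2, hh _ (by omega)]
    have a2 := mean0 hΘ.1 (g := p) fun k hk => by rw [p2, hh _ (by omega)]
    have i2 : Integrable (fun t => Θ t * p t) mu := (Lp.memLp Θ).integrable_mul (Lp.memLp p)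
    have i1 : Integrable (fun t => Θ t * p t * conj (f t)) mu := by
      refine ((Lp.memLp p).integrable_mul (Lp.memLp f)).mono
        (i2.1.mul (continuous_conj.comp_aestronglyMeasurable (Lp.memLp f).1)) ?_
      filter_upwards [hΘ.2.1] with t ht
      simp [ht]
    have := integral_sub i1 (i2.const_mul (conj (fourierCoeff f 0)))
    rw [integral_const_mul, a1, a2, mul_zero, sub_zero] at this
    rw [← this]
    refine integral_congr_ae ?_
    filter_upwards [g4, p1] with t b1 b2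
    rw [b1, b2, map_mul, fourier_neg, conj_conj, map_sub]
    ring
  · rw [ht, ← mul_assoc, ← fourier_add]
    simp
  · rw [g3, if_neg (by omega)]

lemma struc {ι : Type} [Fintype ι] [DecidableEq ι] {M : Matrix ι ι ℂ} (h : UETTO M) (f : ι) :
    ∃ (R : Matrix ι ι ℂ) (c a b w : ι → ℂ) (ζ : ℂ), ‖ζ‖ = 1 ∧
      (∀ μ : ℂ, ‖μ‖ = 1 → IsUnit (1 - μ • R).det) ∧ w ᵥ* (1 - ζ • R) = c ∧ w f ≠ 0 ∧
      1 - Rᴴ * R = vecMulVec (star c) c ∧
      M - Rᴴ * M * R = vecMulVec a c + vecMulVec (star c) b := by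
  obtain ⟨Θ, φ, e, hΘ, ho, hs, hM⟩ := h
  choose g g1 g2 g3 using fun j => back hΘ (f := e j) (hs ▸ Submodule.subset_span ⟨j, rfl⟩)
  choose r hr using fun j => (Submodule.mem_span_range_iff_exists_fun ℂ).1 (show g j ∈ Submodule.span ℂ
    (Set.range e) by rw [← SetLike.mem_coe, hs]; exact g1 j)
  let R : Matrix ι ι ℂ := of fun i j => r j i
  let c : ι → ℂ := fun j => fourierCoeff (e j) 0
  have hu : ∀ μ : ℂ, ‖μ‖ = 1 → IsUnit (1 - μ • R).det := fun μ hμ => by
    rw [isUnit_iff_ne_zero, Ne, ← exists_mulVec_eq_zero_iff]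
    rintro ⟨v, v0, hv⟩
    have l : ∀ (u : ι → ℂ) (x : ι → Lp ℂ 2 mu) n, fourierCoeff (∑ j, u j • x j : Lp ℂ 2 mu) n =
        ∑ j, u j * fourierCoeff (x j) n := fun u x n => by
      simp only [← fourierBasis_repr, map_sum, map_smul, lp.coeFn_sum, Finset.sum_apply,
        lp.coeFn_smul, Pi.smul_apply, smul_eq_mul]
    have a1 : ∀ n : ℕ, fourierCoeff (∑ j, v j • e j : Lp ℂ 2 mu) n =
        μ * fourierCoeff (∑ j, v j • e j : Lp ℂ 2 mu) (n + 1) := fun n => by
      have : ∀ i, v i = μ * ∑ j, r j i * v j := fun i => by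
        rw [sub_mulVec, sub_eq_zero, one_mulVec, smul_mulVec] at hv
        exact congrFun hv i
      simp only [l, ← g3, ← hr, Finset.mul_sum]
      rw [Finset.sum_comm]
      refine Finset.sum_congr rfl fun i _ => ?_
      rw [this i, Finset.mul_sum, Finset.sum_mul]
      exact Finset.sum_congr rfl fun j _ => by ring
    have a2 : ∀ n : ℕ, ‖fourierCoeff (∑ j, v j • e j : Lp ℂ 2 mu) n‖ =
        ‖fourierCoeff (∑ j, v j • e j : Lp ℂ 2 mu) 0‖ := fun n => by
      induction n with
      | zero => rfl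
      | succ n ih => rw [← ih, a1 n, norm_mul, hμ, one_mul, Nat.cast_succ]
    have a3 := (hasSum_sq_fourierCoeff (∑ j, v j • e j : Lp ℂ 2 mu)).summable.comp_injective
      (i := fun n : ℕ => (n : ℤ)) Nat.cast_injective
    simp only [Function.comp_def, a2, summable_const_iff, sq_eq_zero_iff] at a3
    have a4 : (∑ j, v j • e j : Lp ℂ 2 mu) ∈ model Θ := hs ▸ Submodule.sum_mem _ fun j _ =>
      Submodule.smul_mem _ _ (Submodule.subset_span ⟨j, rfl⟩)
    refine v0 (funext (Fintype.linearIndependent_iff.1 ho.linearIndependent v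
      ((fourierBasis (T := 1)).repr.injective (lp.ext (funext fun n => ?_)))))
    rw [fourierBasis_repr, map_zero]
    rcases lt_or_ge n 0 with a | a
    · exact a4.1 n a
    · lift n to ℕ using a
      exact norm_eq_zero.1 ((a2 n).trans a3)
  let W : Circ → ι → ℂ := fun t => c ᵥ* (1 - fourier 1 t • R)⁻¹
  have W1 : ∀ t, W t ᵥ* (1 - fourier 1 t • R) = c := fun t => by
    rw [vecMul_vecMul, nonsing_inv_mul _ (hu _ (by simp)), vecMul_one]
  have W2 : Continuous W := by
    simp only [W, Matrix.inv_def, Ring.inverse_eq_inv']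
    exact continuous_const.matrix_vecMul ((Continuous.inv₀ (by fun_prop) fun t =>
      (hu _ (by simp)).ne_zero).smul (Continuous.matrix_adjugate (by fun_prop)))
  have W3 : ∀ᵐ t ∂mu, ∀ j, e j t = W t j := by
    filter_upwards [ae_all_iff.2 g2, ae_all_iff.2 fun j => Lp.coeFn_finsetSum Finset.univ
      fun i => r j i • e i, ae_all_iff.2 fun j => ae_all_iff.2 fun i => Lp.coeFn_smul (r j i) (e i)]
      with t a1 a2 a3
    have : (fun j => e j t) ᵥ* (1 - fourier 1 t • R) = c := funext fun j => by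
      have := a2 j
      rw [hr, Finset.sum_apply] at this
      simp only [a3, Pi.smul_apply, smul_eq_mul] at this
      rw [vecMul_sub, vecMul_one, Pi.sub_apply, a1 j, this, vecMul_smul]
      simp [vecMul, dotProduct, R, c, mul_comm]
    refine congrFun ?_
    rw [← vecMul_one (fun j => e j t), ← mul_nonsing_inv _ (hu (fourier 1 t) (by simp)),
      ← vecMul_vecMul, this]
  have key : ∀ ψ : Circ → ℂ, Integrable ψ mu → ∀ N : Matrix ι ι ℂ,
      (∀ i j, N i j = ∫ t, ψ t * e j t * conj (e i t) ∂mu) → N - Rᴴ * N * R =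
        vecMulVec (fun i => ∫ t, ψ t * conj (e i t) ∂mu) c + vecMulVec (star c)
          fun j => ∫ t, ψ t * e j t ∂mu - c j * ∫ t, ψ t ∂mu := fun ψ hψ N hN => by
    have hi : ∀ u : C(Circ, ℂ), Integrable (fun t => ψ t * u t) mu := fun u =>
      hψ.mul_bdd u.continuous.aestronglyMeasurable (.of_forall u.norm_coe_le_norm)
    let Λ : C(Circ, ℂ) →ₗ[ℂ] ℂ :=
      { toFun := fun u => ∫ t, ψ t * u t ∂mu
        map_add' := fun u v => by simp [mul_add, integral_add (hi u) (hi v)]
        map_smul' := fun a u => by simp [mul_left_comm _ a, integral_const_mul] }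
    let w : ι → C(Circ, ℂ) := fun j => ⟨fun t => W t j, by fun_prop⟩
    have a1 : ∀ i j, N i j = Λ (w j * star (w i)) := fun i j => (hN i j).trans
      (integral_congr_ae (W3.mono fun t ht => by simp [ht, w, mul_assoc]))
    have a2 : ∀ i, ∫ t, ψ t * conj (e i t) ∂mu = Λ (star (w i)) := fun i =>
      integral_congr_ae (W3.mono fun t ht => by simp [ht, w])
    have a3 : ∀ i, ∫ t, ψ t * e i t ∂mu = Λ (w i) := fun i =>
      integral_congr_ae (W3.mono fun t ht => by simp [ht, w])
    have a4 : ∫ t, ψ t ∂mu = Λ 1 := by simp [Λ]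
    ext i j
    have : w j * star (w i) - ∑ l, ∑ k, (conj (R k i) * R l j) • (w l * star (w k)) =
        c j • star (w i) + conj (c i) • (w j - c j • 1) := by
      ext t
      have b : ∀ j, fourier 1 t * ∑ l, W t l * R l j = W t j - c j := fun j => by
        rw [← W1 t, vecMul_sub, vecMul_one, Pi.sub_apply, vecMul_smul]
        simp [vecMul, dotProduct]
      have b1 := congrArg₂ (· * ·) (b j) (congrArg conj (b i))
      simp only [map_mul, map_sum, map_sub] at b1
      rw [mul_mul_mul_comm, mul_conj', Finset.sum_mul_sum] at b1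
      simp only [fourier_apply, Circle.norm_coe, ofReal_one, one_pow, one_mul] at b1
      simp only [w, ContinuousMap.sub_apply, ContinuousMap.add_apply, ContinuousMap.mul_apply,
        ContinuousMap.coe_sum, Finset.sum_apply, ContinuousMap.smul_apply, ContinuousMap.star_apply,
        ContinuousMap.coe_mk, smul_eq_mul, ContinuousMap.one_apply, star_def]
      rw [Finset.sum_congr rfl fun l _ => Finset.sum_congr rfl fun k _ => show _ =
        W t l * R l j * (conj (W t k) * conj (R k i)) by ring, b1]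
      ring
    have := congrArg Λ this
    simp only [map_sub, map_add, map_sum, map_smul, smul_eq_mul] at this
    simp only [Matrix.sub_apply, Matrix.add_apply, mul_apply, vecMulVec_apply, a1, a2, a3, a4,
      Finset.sum_mul, conjTranspose_apply, Pi.star_apply, star_def, mul_right_comm _ (Λ _)]
    rw [this, mul_comm]
  obtain ⟨t, ht⟩ : ∃ t, W t f ≠ 0 := by
    by_contra! a
    exact ho.ne_zero f (Lp.eq_zero_iff_ae_eq_zero.2 (W3.mono fun t ht => (ht f).trans (a t)))
  refine ⟨R, c, _, _, W t, fourier 1 t, by simp, hu, W1 t, ht, ?_,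
    key φ ((Lp.memLp φ).integrable one_le_two) M hM⟩
  have := key 1 (integrable_const _) 1 fun i j => by
    rw [one_apply, ← orthonormal_iff_ite.1 ho, L2.inner_def]
    simp
  rw [Matrix.mul_one] at this
  rw [this]
  ext i j
  simp [vecMulVec_apply, c, fourierCoeff, integral_conj]

lemma cf (k n : ℤ) : fourierCoeff (fourierLp (T := 1) 2 k) n = if n = k then 1 else 0 := by
  rw [fourierCoeff_congr_ae (coeFn_fourierLp 2 k), fourierCoeff_fourier, Pi.single_apply]

lemma pos : UETTO T := by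
  have k : ∀ g p f : Lp ℂ 2 mu, (∀ᵐ t ∂mu, p t = fourier 6 t * g t) →
      ∫ t, fourierLp (T := 1) 2 6 t * g t * conj (f t) ∂mu = inner ℂ f p := fun g p f h => by
    rw [L2.inner_def]
    refine integral_congr_ae ?_
    filter_upwards [h, coeFn_fourierLp (T := 1) 2 6] with t a1 a2
    rw [RCLike.inner_apply, a1, a2]
  have k2 : ∀ (f : Lp ℂ 2 mu) n, inner ℂ (fourierLp (T := 1) 2 n) f = fourierCoeff f n :=
    fun f n => by rw [← fourierBasis_repr, HilbertBasis.repr_apply_apply, coe_fourierBasis]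
  refine ⟨fourierLp 2 6, fourierLp 2 (-5) + fourierLp 2 1 + (2 : ℂ) • fourierLp 2 4,
    fun j => fourierLp 2 (j : ℕ), ⟨fun k hk => by rw [cf, if_neg (by omega)], ?_, fun c h => ?_⟩,
    orthonormal_fourier.comp _ fun i j h => Fin.ext (by simpa using h), ?_, fun i j => ?_⟩
  · filter_upwards [coeFn_fourierLp (T := 1) 2 6] with t ht
    rw [ht]
    simp
  · have := cf 6 6
    rw [fourierCoeff_congr_ae h, show (fun _ => c) = fun t : Circ => c * fourier 0 t by simp,
      fourierCoeff.const_mul, fourierCoeff_fourier] at this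
    simp at this
  · ext f
    rw [SetLike.mem_coe, Submodule.mem_span_range_iff_exists_fun]
    constructor
    · rintro ⟨c, rfl⟩
      refine ⟨fun n hn => ?_, fun g hg => ?_⟩
      · rw [← k2, inner_sum]
        exact Finset.sum_eq_zero fun j _ => by
          rw [inner_smul_right, k2, cf, if_neg (by omega), mul_zero]
      · obtain ⟨p, p1, p2⟩ := mulz 6 g
        rw [k g p _ p1, sum_inner]
        exact Finset.sum_eq_zero fun j _ => by
          rw [inner_smul_left, k2, p2, hg _ (by omega), mul_zero]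
    · rintro ⟨h1, h2⟩
      refine ⟨fun j => fourierCoeff f (j : ℕ), HasSum.unique ?_ (hasSum_fourier_series_L2 f)⟩
      refine (Function.Injective.hasSum_iff (g := fun j : Fin 6 => ((j : ℕ) : ℤ))
        (fun i j h => Fin.ext (by simpa using h)) fun n hn => ?_).1 (hasSum_fintype _)
      rcases lt_or_ge n 0 with a | a
      · rw [h1 n a, zero_smul]
      have b : 6 ≤ n := by
        by_contra b
        exact hn ⟨⟨n.toNat, by omega⟩, by simpa using a⟩
      have := h2 (fourierLp 2 (n - 6)) fun k hk => by rw [cf, if_neg (by omega)]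
      rw [k _ (fourierLp 2 n) f, inner_eq_zero_symm, k2] at this
      · rw [this, zero_smul]
      filter_upwards [coeFn_fourierLp (T := 1) 2 n, coeFn_fourierLp (T := 1) 2 (n - 6)] with t a1 a2
      rw [a1, a2, ← fourier_add, add_sub_cancel]
  · have : ∀ φ : Lp ℂ 2 mu, ∫ t, φ t * fourierLp (T := 1) 2 (j : ℕ) t *
        conj (fourierLp (T := 1) 2 (i : ℕ) t) ∂mu = fourierCoeff φ ((i : ℕ) - (j : ℕ)) := fun φ => by
      refine integral_congr_ae ?_
      filter_upwards [coeFn_fourierLp (T := 1) 2 (i : ℕ), coeFn_fourierLp (T := 1) 2 (j : ℕ)]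
        with t a1 a2
      rw [a1, a2, neg_sub, sub_eq_add_neg, fourier_add, fourier_neg, smul_eq_mul]
      ring
    rw [this, ← k2, inner_add_right, inner_add_right, inner_smul_right, k2, k2, k2, cf, cf, cf]
    fin_cases i <;> fin_cases j <;> simp [T]

theorem main : ∃ M : Matrix (Fin 6) (Fin 6) ℂ, UETTO M ∧
    ¬UETTO (fromBlocks M 0 0 0 : Matrix (Fin 6 ⊕ Unit) (Fin 6 ⊕ Unit) ℂ) :=
  ⟨T, pos, fun h => by
    obtain ⟨R, c, a, b, w, ζ, h1, h2, h3, h4, h5, h6⟩ := struc h (.inr ())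
    exact red h1 h2 h3 h4 h5 h6⟩

end Pool.Agent.H.MP_3d2409_an
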